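import Mathlib

/-!
# Omissible points: convexity in several charts at once

Points of the plane are lifted to `ℝ³`; an affine function is a vector of `ℝ³`.  The line `ℓ` with
equation `f = 0` is sent to infinity by `x ↦ x̂ / f x`.
-/

set_option autoImplicit false

namespace Pool.Agent.OM

/-- Vectors of `ℝ³`, also used for affine functions on the plane. -/
abbrev V : Type := ℝ × ℝ × ℝ

/-- The value of the linear form `F` at `z`. -/
def ev (F z : V) : ℝ := F.1 * z.1 + F.2.1 * z.2.1 + F.2.2 * z.2.2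

/-- The lift of a point. -/
def hat (x : ℝ × ℝ) : V := (x.1, x.2, 1)

/-- The cross product. -/
def cross (F G : V) : V :=
  (F.2.1 * G.2.2 - F.2.2 * G.2.1, F.2.2 * G.1 - F.1 * G.2.2, F.1 * G.2.1 - F.2.1 * G.1)

/-- The point `x` in the chart of `f`. -/
noncomputable def nrm (f : V) (x : ℝ × ℝ) : V := (ev f (hat x))⁻¹ • hat x

theorem ev_add (F y z : V) : ev F (y + z) = ev F y + ev F z := by
  simp only [ev, Prod.fst_add, Prod.snd_add]; ring

theorem ev_sub (F y z : V) : ev F (y - z) = ev F y - ev F z := by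
  simp only [ev, Prod.fst_sub, Prod.snd_sub]; ring

theorem ev_smul (F z : V) (c : ℝ) : ev F (c • z) = c * ev F z := by
  simp only [ev, Prod.smul_fst, Prod.smul_snd, smul_eq_mul]; ring

theorem ev_smul_left (F z : V) (c : ℝ) : ev (c • F) z = c * ev F z := by
  simp only [ev, Prod.smul_fst, Prod.smul_snd, smul_eq_mul]; ring

theorem ev_sub_left (F G z : V) : ev (F - G) z = ev F z - ev G z := by
  simp only [ev, Prod.fst_sub, Prod.snd_sub]; ring

theorem ev_add_left (F G z : V) : ev (F + G) z = ev F z + ev G z := by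
  simp only [ev, Prod.fst_add, Prod.snd_add]; ring

theorem ev_cross_left (f g : V) : ev f (cross f g) = 0 := by
  simp only [ev, cross]; ring

theorem ev_cross_right (f g : V) : ev g (cross f g) = 0 := by
  simp only [ev, cross]; ring

theorem ev_nrm_self {f : V} {x : ℝ × ℝ} (h : ev f (hat x) ≠ 0) : ev f (nrm f x) = 1 := by
  unfold nrm
  rw [ev_smul, inv_mul_cancel₀ h]

theorem ev_nrm (f g : V) (x : ℝ × ℝ) : ev g (nrm f x) = ev g (hat x) / ev f (hat x) := by
  unfold nrm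
  rw [ev_smul]
  ring

/-- A vector killed by three independent forms is zero. -/
theorem vec_zero {f g L z : V} (hf : ev f z = 0) (hg : ev g z = 0) (hL : ev L z = 0)
    (hd : ev L (cross f g) ≠ 0) : z = 0 := by
  obtain ⟨f1, f2, f3⟩ := f
  obtain ⟨g1, g2, g3⟩ := g
  obtain ⟨l1, l2, l3⟩ := L
  obtain ⟨z1, z2, z3⟩ := z
  simp only [ev, cross] at hf hg hL hd
  have h1 : (l1 * (f2 * g3 - f3 * g2) + l2 * (f3 * g1 - f1 * g3) + l3 * (f1 * g2 - f2 * g1)) * z1
      = 0 := by
    linear_combination (g2 * l3 - g3 * l2) * hf + (l2 * f3 - l3 * f2) * hg +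
      (f2 * g3 - f3 * g2) * hL
  have h2 : (l1 * (f2 * g3 - f3 * g2) + l2 * (f3 * g1 - f1 * g3) + l3 * (f1 * g2 - f2 * g1)) * z2
      = 0 := by
    linear_combination (g3 * l1 - g1 * l3) * hf + (l3 * f1 - l1 * f3) * hg +
      (f3 * g1 - f1 * g3) * hL
  have h3 : (l1 * (f2 * g3 - f3 * g2) + l2 * (f3 * g1 - f1 * g3) + l3 * (f1 * g2 - f2 * g1)) * z3
      = 0 := by
    linear_combination (g1 * l2 - g2 * l1) * hf + (l1 * f2 - l2 * f1) * hg +
      (f1 * g2 - f2 * g1) * hL
  have e1 := (mul_eq_zero.mp h1).resolve_left hd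
  have e2 := (mul_eq_zero.mp h2).resolve_left hd
  have e3 := (mul_eq_zero.mp h3).resolve_left hd
  rw [e1, e2, e3]
  rfl

/-- The chart is injective. -/
theorem nrm_inj {f : V} {x y : ℝ × ℝ} (hx : ev f (hat x) ≠ 0) (h : nrm f x = nrm f y) :
    x = y := by
  unfold nrm hat at h
  simp only [Prod.smul_mk, smul_eq_mul, Prod.mk.injEq, mul_one] at h
  obtain ⟨h1, h2, h3⟩ := h
  have hx' : (ev f (x.1, x.2, 1))⁻¹ ≠ 0 := inv_ne_zero hx
  rw [← h3] at h1 h2
  exact Prod.ext (mul_left_cancel₀ hx' h1) (mul_left_cancel₀ hx' h2)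

/-- The key computation: two points of the same class are in convex position only if they are
equal. -/
theorem class_uniq {f g o a₁ a₂ v₁ v₂ L₁ L₂ : V} (fo : ev f o = 0) (go : ev g o = 0)
    (fa₁ : ev f a₁ = 1) (fa₂ : ev f a₂ = 1) (fv₁ : ev f v₁ = 1) (fv₂ : ev f v₂ = 1)
    (ga₁ : ev g a₁ = 0) (ga₂ : ev g a₂ = 0) (gv₁ : 0 < ev g v₁) (gv₂ : 0 < ev g v₂)
    (la₁ : ev L₁ a₁ = 0) (lv₁ : ev L₁ v₁ = 0) (la₂ : ev L₂ a₂ = 0) (lv₂ : ev L₂ v₂ = 0)
    (h12 : 0 ≤ ev L₁ v₂) (h21 : 0 ≤ ev L₂ v₁) (lo₁ : 0 < ev L₁ o) (lo₂ : 0 < ev L₂ o)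
    (hz : ∀ z, ev f z = 0 → ev g z = 0 → ev L₁ z = 0 → z = 0) :
    v₁ = v₂ ∨
    (∃ s t q : ℝ, 0 ≤ s ∧ 0 ≤ t ∧ 0 ≤ q ∧ s + t + q = 1 ∧ v₂ = s • a₁ + t • a₂ + q • v₁) ∨
    (∃ s t q : ℝ, 0 ≤ s ∧ 0 ≤ t ∧ 0 ≤ q ∧ s + t + q = 1 ∧ v₁ = s • a₁ + t • a₂ + q • v₂) := by
  obtain ⟨p, hp⟩ : ∃ p, p = ev L₁ v₂ / ev L₁ o := ⟨_, rfl⟩
  obtain ⟨r, hr⟩ : ∃ r, r = ev g v₂ / ev g v₁ := ⟨_, rfl⟩
  obtain ⟨τ, hτ⟩ : ∃ τ, τ = ev L₁ a₂ / ev L₁ o := ⟨_, rfl⟩
  have hp0 : 0 ≤ p := by rw [hp]; positivity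
  have hr0 : 0 < r := by rw [hr]; positivity
  have hp' : p * ev L₁ o = ev L₁ v₂ := by rw [hp]; field_simp
  have hr' : r * ev g v₁ = ev g v₂ := by rw [hr]; field_simp
  have hτ' : τ * ev L₁ o = ev L₁ a₂ := by rw [hτ]; field_simp
  have e1 : a₂ = a₁ + τ • o := by
    have h := hz (a₂ - a₁ - τ • o) (by simp only [ev_sub, ev_smul, fa₁, fa₂, fo]; ring)
      (by simp only [ev_sub, ev_smul, ga₁, ga₂, go]; ring)
      (by simp only [ev_sub, ev_smul, la₁, hτ']; ring)
    have h2 : a₂ - (a₁ + τ • o) = 0 := by rw [← h]; abel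
    exact sub_eq_zero.mp h2
  have e2 : v₂ = p • o + (1 - r) • a₁ + r • v₁ := by
    have h := hz (v₂ - (p • o + (1 - r) • a₁ + r • v₁))
      (by simp only [ev_sub, ev_add, ev_smul, fa₁, fv₁, fv₂, fo]; ring)
      (by simp only [ev_sub, ev_add, ev_smul, ga₁, go]; linarith)
      (by simp only [ev_sub, ev_add, ev_smul, la₁, lv₁]; linarith)
    exact sub_eq_zero.mp h
  have e3 : ev L₂ a₁ = -τ * ev L₂ o := by
    have h := la₂
    rw [e1, ev_add, ev_smul] at h
    linarith
  have e4 : r * ev L₂ v₁ = ((1 - r) * τ - p) * ev L₂ o := by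
    have h := lv₂
    rw [e2, ev_add, ev_add, ev_smul, ev_smul, ev_smul, e3] at h
    linarith
  have e5 : p ≤ (1 - r) * τ := by
    have h1 : 0 ≤ ((1 - r) * τ - p) * ev L₂ o := by rw [← e4]; positivity
    have h2 := nonneg_of_mul_nonneg_left h1 lo₂
    linarith
  rcases lt_trichotomy r 1 with h | h | h
  · right; left
    have h1 : 0 < 1 - r := by linarith
    have hτ0 : 0 ≤ τ := by
      by_contra hc
      push Not at hc
      have := mul_neg_of_pos_of_neg h1 hc
      linarith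
    rcases eq_or_lt_of_le hτ0 with h2 | h2
    · have hp1 : p = 0 := by
        rw [← h2] at e5
        linarith
      refine ⟨1 - r, 0, r, h1.le, le_rfl, hr0.le, by ring, ?_⟩
      rw [e2, hp1, zero_smul, zero_smul, zero_add, add_zero]
    · have h3 : p / τ ≤ 1 - r := by rw [div_le_iff₀ h2]; exact e5
      have h4 : 0 ≤ p / τ := by positivity
      refine ⟨1 - r - p / τ, p / τ, r, by linarith, h4, hr0.le, by ring, ?_⟩
      have h5 : (p / τ) * τ = p := by field_simp
      rw [e2, e1, smul_add, smul_smul, h5]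
      module
  · left
    subst h
    have hp1 : p = 0 := by linarith
    rw [e2, hp1]
    module
  · right; right
    have h1 : 0 < r - 1 := by linarith
    have hτ0 : τ ≤ 0 := by
      by_contra hc
      push Not at hc
      have := mul_pos h1 hc
      nlinarith
    rcases eq_or_lt_of_le hτ0 with h2 | h2
    · have hp1 : p = 0 := by
        rw [h2] at e5
        linarith
      refine ⟨(r - 1) / r, 0, 1 / r, by positivity, le_rfl, by positivity, by field_simp; ring, ?_⟩
      have h6 : r • v₁ = v₂ - (1 - r) • a₁ := by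
        rw [e2, hp1]
        module
      have h7 : v₁ = (1 / r) • (r • v₁) := by
        rw [smul_smul, one_div, inv_mul_cancel₀ hr0.ne', one_smul]
      rw [h7, h6]
      have h8 : (r - 1) / r = (1 / r) * (r - 1) := by ring
      rw [h8]
      module
    · have h3 : p / (-τ) ≤ r - 1 := by
        rw [div_le_iff₀ (by linarith)]
        linarith
      have h4 : 0 ≤ p / (-τ) := div_nonneg hp0 (by linarith)
      have h5 : (p / (-τ)) * τ = -p := by
        have : τ ≠ 0 := h2.ne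
        field_simp
      refine ⟨(1 / r) * (r - 1 - p / (-τ)), (1 / r) * (p / (-τ)), 1 / r, ?_, ?_, by positivity,
        by field_simp; ring, ?_⟩
      · have : 0 ≤ r - 1 - p / (-τ) := by linarith
        positivity
      · positivity
      have h6 : r • v₁ = v₂ - p • o - (1 - r) • a₁ := by
        rw [e2]
        module
      have h7 : v₁ = (1 / r) • (r • v₁) := by
        rw [smul_smul, one_div, inv_mul_cancel₀ hr0.ne', one_smul]
      have h8 : (p / (-τ)) • a₂ = (p / (-τ)) • a₁ - p • o := by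
        rw [e1, smul_add, smul_smul, h5]
        module
      have h9 : ((1 / r) * (p / (-τ))) • a₂ = (1 / r) • ((p / (-τ)) • a₁ - p • o) := by
        rw [mul_smul, h8]
      rw [h7, h6, h9]
      module

end Pool.Agent.OM
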