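import Pool.Agent.Helper43_OM.Core

/-!
# Omissible points: flags (extreme points in a chart)
-/

set_option autoImplicit false

namespace Pool.Agent.OM

/-- The equation of the line through `p` with direction `u`. -/
def lin (p u : ℝ × ℝ) : V := (-u.2, u.1, u.2 * p.1 - u.1 * p.2)

/-- The affine function `κ ⟨u, x - a⟩`. -/
def gf (u a : ℝ × ℝ) (κ : ℝ) : V := (κ * u.1, κ * u.2, -(κ * (u.1 * a.1 + u.2 * a.2)))

/-- The constant function `κ`. -/
def mf (κ : ℝ) : V := (0, 0, κ)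

theorem ev_lin (p u x : ℝ × ℝ) :
    ev (lin p u) (hat x) = u.1 * (x.2 - p.2) - u.2 * (x.1 - p.1) := by
  simp only [ev, lin, hat]; ring

theorem ev_gf (u a x : ℝ × ℝ) (κ : ℝ) :
    ev (gf u a κ) (hat x) = κ * (u.1 * (x.1 - a.1) + u.2 * (x.2 - a.2)) := by
  simp only [ev, gf, hat]; ring

theorem ev_mf (x : ℝ × ℝ) (κ : ℝ) : ev (mf κ) (hat x) = κ := by
  simp only [ev, mf, hat]; ring

/-- `v` is the extreme point of `X ∖ ℓ` for the direction `(a, κ)` in the chart of `f`. -/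
structure Flag (X : Finset (ℝ × ℝ)) (f : V) (u a : ℝ × ℝ) (κ : ℝ) (v : ℝ × ℝ) : Prop where
  mem : v ∈ X
  off : ev f (hat v) ≠ 0
  lex : ∀ x ∈ X, ev f (hat x) ≠ 0 → x ≠ v →
    ev (gf u a κ) (nrm f x) < ev (gf u a κ) (nrm f v) ∨
    (ev (gf u a κ) (nrm f x) = ev (gf u a κ) (nrm f v) ∧
      ev (mf κ) (nrm f x) < ev (mf κ) (nrm f v))

/-- `v` is an exposed point of `X ∖ ℓ` in the chart of `f`. -/
def Expo (X : Finset (ℝ × ℝ)) (f : V) (v : ℝ × ℝ) : Prop :=
  ∃ N : V, ∀ x ∈ X, ev f (hat x) ≠ 0 → x ≠ v → ev N (nrm f x) < ev N (nrm f v)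

theorem Flag.expo {X : Finset (ℝ × ℝ)} {f : V} {u a : ℝ × ℝ} {κ : ℝ} {v : ℝ × ℝ}
    (h : Flag X f u a κ v) : Expo X f v := by
  have h1 : ∀ᶠ c : ℝ in Filter.atTop, ∀ x ∈ X, ev f (hat x) ≠ 0 → x ≠ v →
      ev (c • gf u a κ + mf κ) (nrm f x) < ev (c • gf u a κ + mf κ) (nrm f v) := by
    rw [Filter.eventually_all_finset]
    intro x hx
    by_cases h1 : ev f (hat x) ≠ 0 ∧ x ≠ v
    · rcases h.lex x hx h1.1 h1.2 with h2 | ⟨h2, h3⟩
      · set d := ev (gf u a κ) (nrm f v) - ev (gf u a κ) (nrm f x) with hd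
        have hd0 : 0 < d := by linarith
        filter_upwards [Filter.eventually_gt_atTop
          ((ev (mf κ) (nrm f x) - ev (mf κ) (nrm f v)) / d)] with c hc _ _
        rw [div_lt_iff₀ hd0] at hc
        simp only [ev_add_left, ev_smul_left]
        have : c * d = c * ev (gf u a κ) (nrm f v) - c * ev (gf u a κ) (nrm f x) := by
          rw [hd]; ring
        linarith
      · refine Filter.Eventually.of_forall fun c _ _ => ?_
        simp only [ev_add_left, ev_smul_left, h2]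
        linarith
    · refine Filter.Eventually.of_forall fun c h2 h3 => absurd ⟨h2, h3⟩ h1
  obtain ⟨c, hc⟩ := h1.exists
  exact ⟨_, hc⟩

/-- An exposed point is not a convex combination of other points. -/
theorem Expo.not_conv {X : Finset (ℝ × ℝ)} {f : V} {v a b c : ℝ × ℝ} (h : Expo X f v)
    (ha : a ∈ X) (hb : b ∈ X) (hc : c ∈ X) (fa : ev f (hat a) ≠ 0) (fb : ev f (hat b) ≠ 0)
    (fc : ev f (hat c) ≠ 0) (hav : a ≠ v) (hbv : b ≠ v) (hcv : c ≠ v) {s t q : ℝ} (hs : 0 ≤ s)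
    (ht : 0 ≤ t) (hq : 0 ≤ q) (hsum : s + t + q = 1)
    (he : nrm f v = s • nrm f a + t • nrm f b + q • nrm f c) : False := by
  obtain ⟨N, hN⟩ := h
  have h1 := hN a ha fa hav
  have h2 := hN b hb fb hbv
  have h3 := hN c hc fc hcv
  have h4 : ev N (nrm f v) = s * ev N (nrm f a) + t * ev N (nrm f b) + q * ev N (nrm f c) := by
    conv_lhs => rw [he]
    simp only [ev_add, ev_smul]
  have h5 : s * (ev N (nrm f v) - ev N (nrm f a)) + t * (ev N (nrm f v) - ev N (nrm f b)) +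
      q * (ev N (nrm f v) - ev N (nrm f c)) = 0 := by
    have : (s + t + q) * ev N (nrm f v) = ev N (nrm f v) := by rw [hsum, one_mul]
    linarith
  have h6 : 0 ≤ s * (ev N (nrm f v) - ev N (nrm f a)) := mul_nonneg hs (by linarith)
  have h7 : 0 ≤ t * (ev N (nrm f v) - ev N (nrm f b)) := mul_nonneg ht (by linarith)
  have h8 : 0 ≤ q * (ev N (nrm f v) - ev N (nrm f c)) := mul_nonneg hq (by linarith)
  have e6 : s * (ev N (nrm f v) - ev N (nrm f a)) = 0 := by linarith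
  have e7 : t * (ev N (nrm f v) - ev N (nrm f b)) = 0 := by linarith
  have e8 : q * (ev N (nrm f v) - ev N (nrm f c)) = 0 := by linarith
  have s0 : s = 0 := (mul_eq_zero.mp e6).resolve_right (by linarith)
  have t0 : t = 0 := (mul_eq_zero.mp e7).resolve_right (by linarith)
  have q0 : q = 0 := (mul_eq_zero.mp e8).resolve_right (by linarith)
  rw [s0, t0, q0] at hsum
  norm_num at hsum

/-- Existence of the extreme point. -/
theorem exists_flag {X : Finset (ℝ × ℝ)} {p u : ℝ × ℝ} (hu : u ≠ 0)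
    (hX : ∃ x ∈ X, ev (lin p u) (hat x) ≠ 0) (a : ℝ × ℝ) {κ : ℝ} (hκ : κ ≠ 0) :
    ∃ v, Flag X (lin p u) u a κ v := by
  classical
  set f := lin p u with hf
  set Y := X.filter fun x => ev f (hat x) ≠ 0 with hY
  have hYne : Y.Nonempty := by
    obtain ⟨x, hx, hx'⟩ := hX
    exact ⟨x, Finset.mem_filter.mpr ⟨hx, hx'⟩⟩
  obtain ⟨v₀, hv₀, hmax₀⟩ := Finset.exists_max_image Y (fun x => ev (gf u a κ) (nrm f x)) hYne
  set Z := Y.filter fun x => ev (gf u a κ) (nrm f x) = ev (gf u a κ) (nrm f v₀) with hZ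
  have hZne : Z.Nonempty := ⟨v₀, Finset.mem_filter.mpr ⟨hv₀, rfl⟩⟩
  obtain ⟨v, hv, hmax⟩ := Finset.exists_max_image Z (fun x => ev (mf κ) (nrm f x)) hZne
  obtain ⟨hvY, hvG⟩ := Finset.mem_filter.mp hv
  obtain ⟨hvX, hvf⟩ := Finset.mem_filter.mp hvY
  refine ⟨v, hvX, hvf, fun x hx hxf hne => ?_⟩
  have hxY : x ∈ Y := Finset.mem_filter.mpr ⟨hx, hxf⟩
  have h1 := hmax₀ x hxY
  rw [← hvG] at h1
  rcases lt_or_eq_of_le h1 with h2 | h2
  · exact Or.inl h2
  · right
    refine ⟨h2, ?_⟩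
    have h3 := hmax x (Finset.mem_filter.mpr ⟨hxY, h2.trans hvG⟩)
    rcases lt_or_eq_of_le h3 with h4 | h4
    · exact h4
    · exfalso
      apply hne
      rw [ev_nrm, ev_nrm, ev_mf, ev_mf] at h4
      rw [ev_nrm, ev_nrm, ev_gf, ev_gf] at h2
      have h5 : ev f (hat x) = ev f (hat v) := by
        rw [div_eq_div_iff hxf hvf] at h4
        exact (mul_left_cancel₀ hκ h4).symm
      rw [h5] at h2
      have h6 : κ * (u.1 * (x.1 - a.1) + u.2 * (x.2 - a.2)) =
          κ * (u.1 * (v.1 - a.1) + u.2 * (v.2 - a.2)) := by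
        rw [div_left_inj' hvf] at h2
        exact h2
      have h7 := mul_left_cancel₀ hκ h6
      rw [hf, ev_lin, ev_lin] at h5
      have hu2 : 0 < u.1 ^ 2 + u.2 ^ 2 := by
        by_contra hc
        push Not at hc
        have h8 : u.1 = 0 := by nlinarith [sq_nonneg u.1, sq_nonneg u.2]
        have h9 : u.2 = 0 := by nlinarith [sq_nonneg u.1, sq_nonneg u.2]
        exact hu (Prod.ext h8 h9)
      have e1 : (u.1 ^ 2 + u.2 ^ 2) * (x.1 - v.1) = 0 := by
        linear_combination u.1 * h7 - u.2 * h5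
      have e2 : (u.1 ^ 2 + u.2 ^ 2) * (x.2 - v.2) = 0 := by
        linear_combination u.2 * h7 + u.1 * h5
      have e3 := (mul_eq_zero.mp e1).resolve_left hu2.ne'
      have e4 := (mul_eq_zero.mp e2).resolve_left hu2.ne'
      exact Prod.ext (sub_eq_zero.mp e3) (sub_eq_zero.mp e4)

/-- The extreme points are different. -/
theorem flag_inj {X : Finset (ℝ × ℝ)} {p u : ℝ × ℝ} (hu : u ≠ 0) {a a' v w w' : ℝ × ℝ}
    {κ κ' : ℝ} (hκ : κ = 1 ∨ κ = -1) (hκ' : κ' = 1 ∨ κ' = -1)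
    (ha : ev (lin p u) (hat a) = 0) (ha' : ev (lin p u) (hat a') = 0)
    (h : Flag X (lin p u) u a κ v) (h' : Flag X (lin p u) u a' κ' v)
    (hw : w ∈ X) (hwf : ev (lin p u) (hat w) ≠ 0) (hwv : w ≠ v)
    (hwG : ev (gf u a κ) (nrm (lin p u) w) = ev (gf u a κ) (nrm (lin p u) v))
    (hw' : w' ∈ X) (hwf' : ev (lin p u) (hat w') ≠ 0) (hwv' : w' ≠ v)
    (hwG' : ev (gf u a' κ') (nrm (lin p u) w') = ev (gf u a' κ') (nrm (lin p u) v)) :
    a = a' ∧ κ = κ' := by
  set f := lin p u with hf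
  -- coordinates
  have hG : ∀ (b x : ℝ × ℝ) (c : ℝ), ev (gf u b c) (nrm f x) =
      c * ((u.1 * x.1 + u.2 * x.2) / ev f (hat x) -
        (u.1 * b.1 + u.2 * b.2) * (ev f (hat x))⁻¹) := by
    intro b x c
    rw [ev_nrm, ev_gf]
    ring
  have hM : ∀ (x : ℝ × ℝ) (c : ℝ), ev (mf c) (nrm f x) = c * (ev f (hat x))⁻¹ := by
    intro x c
    rw [ev_nrm, ev_mf]
    ring
  have k2 : κ * κ = 1 := by rcases hκ with h | h <;> rw [h] <;> norm_num
  have k2' : κ' * κ' = 1 := by rcases hκ' with h | h <;> rw [h] <;> norm_num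
  have l1 := h.lex w hw hwf hwv
  have l1' := h'.lex w' hw' hwf' hwv'
  have l2 := h'.lex w hw hwf hwv
  have l2' := h.lex w' hw' hwf' hwv'
  rw [hwG] at l1
  rw [hwG'] at l1'
  have l3 : ev (mf κ) (nrm f w) < ev (mf κ) (nrm f v) := by
    rcases l1 with h | h
    · exact absurd h (lt_irrefl _)
    · exact h.2
  have l3' : ev (mf κ') (nrm f w') < ev (mf κ') (nrm f v) := by
    rcases l1' with h | h
    · exact absurd h (lt_irrefl _)
    · exact h.2
  rw [hG, hG] at hwG hwG'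
  rw [hG, hG, hM, hM] at l2 l2'
  rw [hM, hM] at l3 l3'
  set α := u.1 * a.1 + u.2 * a.2 with hα
  set α' := u.1 * a'.1 + u.2 * a'.2 with hα'
  set H := (u.1 * v.1 + u.2 * v.2) / ev f (hat v) with hH
  set Hw := (u.1 * w.1 + u.2 * w.2) / ev f (hat w) with hHw
  set Hw' := (u.1 * w'.1 + u.2 * w'.2) / ev f (hat w') with hHw'
  set F := (ev f (hat v))⁻¹ with hF
  set Fw := (ev f (hat w))⁻¹ with hFw
  set Fw' := (ev f (hat w'))⁻¹ with hFw'
  have e1 : Hw - H = α * (Fw - F) := by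
    have h2 : κ * (κ * (Hw - α * Fw)) = κ * (κ * (H - α * F)) := by rw [hwG]
    rw [← mul_assoc, ← mul_assoc, k2] at h2
    linarith
  have e1' : Hw' - H = α' * (Fw' - F) := by
    have h2 : κ' * (κ' * (Hw' - α' * Fw')) = κ' * (κ' * (H - α' * F)) := by rw [hwG']
    rw [← mul_assoc, ← mul_assoc, k2'] at h2
    linarith
  have m1 : κ * (Fw - F) < 0 := by linarith
  have m1' : κ' * (Fw' - F) < 0 := by linarith
  have m2 : κ' * ((α - α') * (Fw - F)) ≤ 0 := by
    have h3 : κ' * (Hw - α' * Fw) - κ' * (H - α' * F) = κ' * ((α - α') * (Fw - F)) := by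
      linear_combination κ' * e1
    rcases l2 with h | h
    · linarith
    · linarith [h.1]
  have m2' : κ * ((α' - α) * (Fw' - F)) ≤ 0 := by
    have h3 : κ * (Hw' - α * Fw') - κ * (H - α * F) = κ * ((α' - α) * (Fw' - F)) := by
      linear_combination κ * e1'
    rcases l2' with h | h
    · linarith
    · linarith [h.1]
  have hαα : α = α' := by
    by_contra hne
    rcases hκ with rfl | rfl <;> rcases hκ' with rfl | rfl
    · rcases lt_or_gt_of_ne hne with h | h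
      · nlinarith
      · nlinarith
    · rcases lt_or_gt_of_ne hne with h | h
      · nlinarith
      · nlinarith
    · rcases lt_or_gt_of_ne hne with h | h
      · nlinarith
      · nlinarith
    · rcases lt_or_gt_of_ne hne with h | h
      · nlinarith
      · nlinarith
  have haa : a = a' := by
    rw [hf, ev_lin] at ha ha'
    have hu2 : 0 < u.1 ^ 2 + u.2 ^ 2 := by
      by_contra hc
      push Not at hc
      have h8 : u.1 = 0 := by nlinarith [sq_nonneg u.1, sq_nonneg u.2]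
      have h9 : u.2 = 0 := by nlinarith [sq_nonneg u.1, sq_nonneg u.2]
      exact hu (Prod.ext h8 h9)
    have e2 : (u.1 ^ 2 + u.2 ^ 2) * (a.1 - a'.1) = 0 := by
      linear_combination u.1 * hαα - u.2 * (ha - ha')
    have e3 : (u.1 ^ 2 + u.2 ^ 2) * (a.2 - a'.2) = 0 := by
      linear_combination u.2 * hαα + u.1 * (ha - ha')
    have e4 := (mul_eq_zero.mp e2).resolve_left hu2.ne'
    have e5 := (mul_eq_zero.mp e3).resolve_left hu2.ne'
    exact Prod.ext (sub_eq_zero.mp e4) (sub_eq_zero.mp e5)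
  refine ⟨haa, ?_⟩
  have m3 : κ' * (Fw - F) < 0 := by
    rw [← hαα] at l2
    rcases l2 with h | h
    · have h3 : κ' * (Hw - α * Fw) - κ' * (H - α * F) = 0 := by
        linear_combination κ' * e1
      linarith
    · linarith [h.2]
  rcases hκ with rfl | rfl <;> rcases hκ' with rfl | rfl
  · rfl
  · linarith
  · linarith
  · rfl

end Pool.Agent.OM
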