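import Pool.Agent.Helper43_OM.Pair

/-!
# Omissible points on `t` lines
-/

set_option autoImplicit false

open scoped BigOperators

namespace Pool.Agent.OM

/-- `a` is an omissible point of `X`: every line through `a` and another point of `X` contains a
third point of `X`. -/
def Om (X : Finset (ℝ × ℝ)) (a : ℝ × ℝ) : Prop :=
  a ∈ X ∧ ∀ x ∈ X, x ≠ a → ∃ y ∈ X, y ≠ a ∧ y ≠ x ∧
    (x.1 - a.1) * (y.2 - a.2) - (x.2 - a.2) * (y.1 - a.1) = 0

theorem sq_pos_of {u : ℝ × ℝ} (hu : u ≠ 0) : 0 < u.1 ^ 2 + u.2 ^ 2 := by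
  by_contra hc
  push Not at hc
  have h8 : u.1 = 0 := by nlinarith [sq_nonneg u.1, sq_nonneg u.2]
  have h9 : u.2 = 0 := by nlinarith [sq_nonneg u.1, sq_nonneg u.2]
  exact hu (Prod.ext h8 h9)

/-- The extreme line contains a second point. -/
theorem witness {X : Finset (ℝ × ℝ)} {p u a v : ℝ × ℝ} {κ : ℝ} (ha : Om X a)
    (hfa : ev (lin p u) (hat a) = 0) (h : Flag X (lin p u) u a κ v) :
    ∃ w ∈ X, ev (lin p u) (hat w) ≠ 0 ∧ w ≠ v ∧
      ev (gf u a κ) (nrm (lin p u) w) = ev (gf u a κ) (nrm (lin p u) v) := by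
  have hva : v ≠ a := by
    rintro rfl
    exact h.off hfa
  obtain ⟨w, hwX, hwa, hwv, hD⟩ := ha.2 v h.mem hva
  have hv := h.off
  rw [ev_lin] at hv hfa
  have hw : ev (lin p u) (hat w) ≠ 0 := by
    rw [ev_lin]
    intro h0
    have h1 : u.1 * (w.2 - a.2) - u.2 * (w.1 - a.1) = 0 := by linarith
    have h2 : u.1 * (v.2 - a.2) - u.2 * (v.1 - a.1) ≠ 0 := by
      intro h3
      apply hv
      linarith
    apply hwa
    -- w - a is parallel to u and to v - a
    have h3 : (u.1 * (v.2 - a.2) - u.2 * (v.1 - a.1)) * (w.1 - a.1) = 0 := by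
      linear_combination (v.1 - a.1) * h1 - u.1 * hD
    have h4 : (u.1 * (v.2 - a.2) - u.2 * (v.1 - a.1)) * (w.2 - a.2) = 0 := by
      linear_combination (v.2 - a.2) * h1 - u.2 * hD
    have h5 := (mul_eq_zero.mp h3).resolve_left h2
    have h6 := (mul_eq_zero.mp h4).resolve_left h2
    exact Prod.ext (sub_eq_zero.mp h5) (sub_eq_zero.mp h6)
  refine ⟨w, hwX, hw, hwv, ?_⟩
  rw [ev_nrm, ev_nrm, div_eq_div_iff hw h.off, ev_gf, ev_gf, ev_lin, ev_lin]
  have e1 : u.1 * (v.2 - p.2) - u.2 * (v.1 - p.1) = u.1 * (v.2 - a.2) - u.2 * (v.1 - a.1) := by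
    linarith
  have e2 : u.1 * (w.2 - p.2) - u.2 * (w.1 - p.1) = u.1 * (w.2 - a.2) - u.2 * (w.1 - a.1) := by
    linarith
  rw [e1, e2]
  linear_combination (-(κ * (u.1 ^ 2 + u.2 ^ 2))) * hD

section
open Classical

/-- The points on the first lines are used first. -/
noncomputable def AA (X : Finset (ℝ × ℝ)) (P U : ℕ → ℝ × ℝ) (i : ℕ) : Finset (ℝ × ℝ) :=
  X.filter fun a => Om X a ∧ ev (lin (P i) (U i)) (hat a) = 0 ∧
    ∀ j < i, ev (lin (P j) (U j)) (hat a) ≠ 0

theorem exists_VV {X : Finset (ℝ × ℝ)} {P U : ℕ → ℝ × ℝ} {i : ℕ} (hU : U i ≠ 0)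
    (hX : ∃ x ∈ X, ev (lin (P i) (U i)) (hat x) ≠ 0) :
    ∃ S : Finset (ℝ × ℝ), S.card = 2 * (AA X P U i).card ∧ S ⊆ X ∧
      (∀ v ∈ S, ev (lin (P i) (U i)) (hat v) ≠ 0) ∧ (∀ v ∈ S, Expo X (lin (P i) (U i)) v) ∧
      ∀ v ∈ S, ∃ a ∈ AA X P U i, ∃ κ : ℝ, κ ≠ 0 ∧ Flag X (lin (P i) (U i)) (U i) a κ v := by
  have hex : ∀ (q : (ℝ × ℝ) × ℝ), ∃ v, q.2 ≠ 0 → Flag X (lin (P i) (U i)) (U i) q.1 q.2 v := by
    intro q
    by_cases hq : q.2 ≠ 0
    · obtain ⟨v, hv⟩ := exists_flag hU hX q.1 hq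
      exact ⟨v, fun _ => hv⟩
    · exact ⟨0, fun h => absurd h hq⟩
  choose φ hφ using hex
  have hmem : ∀ q ∈ (AA X P U i) ×ˢ ({1, -1} : Finset ℝ), (Om X q.1 ∧
      ev (lin (P i) (U i)) (hat q.1) = 0) ∧ (q.2 = 1 ∨ q.2 = -1) ∧ q.2 ≠ 0 := by
    intro q hq
    rw [Finset.mem_product] at hq
    obtain ⟨h1, h2⟩ := hq
    have h3 := (Finset.mem_filter.mp h1).2
    rw [Finset.mem_insert, Finset.mem_singleton] at h2
    refine ⟨⟨h3.1, h3.2.1⟩, h2, ?_⟩
    rcases h2 with h | h <;> rw [h] <;> norm_num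
  have hinj : Set.InjOn φ ((AA X P U i) ×ˢ ({1, -1} : Finset ℝ) : Finset ((ℝ × ℝ) × ℝ)) := by
    intro q hq q' hq' he
    obtain ⟨⟨o1, z1⟩, s1, n1⟩ := hmem q hq
    obtain ⟨⟨o2, z2⟩, s2, n2⟩ := hmem q' hq'
    have f1 := hφ q n1
    have f2 := hφ q' n2
    rw [← he] at f2
    obtain ⟨w, w1, w2, w3, w4⟩ := witness o1 z1 f1
    obtain ⟨w', w1', w2', w3', w4'⟩ := witness o2 z2 f2
    obtain ⟨h1, h2⟩ := flag_inj hU s1 s2 z1 z2 f1 f2 w1 w2 w3 w4 w1' w2' w3' w4'
    exact Prod.ext h1 h2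
  refine ⟨((AA X P U i) ×ˢ ({1, -1} : Finset ℝ)).image φ, ?_, ?_, ?_, ?_, ?_⟩
  · rw [Finset.card_image_of_injOn hinj, Finset.card_product]
    have : ({1, -1} : Finset ℝ).card = 2 := by
      rw [Finset.card_pair]
      norm_num
    rw [this, mul_comm]
  · intro v hv
    obtain ⟨q, hq, rfl⟩ := Finset.mem_image.mp hv
    exact (hφ q (hmem q hq).2.2).mem
  · intro v hv
    obtain ⟨q, hq, rfl⟩ := Finset.mem_image.mp hv
    exact (hφ q (hmem q hq).2.2).off
  · intro v hv
    obtain ⟨q, hq, rfl⟩ := Finset.mem_image.mp hv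
    exact (hφ q (hmem q hq).2.2).expo
  · intro v hv
    obtain ⟨q, hq, rfl⟩ := Finset.mem_image.mp hv
    exact ⟨q.1, (Finset.mem_product.mp hq).1, q.2, (hmem q hq).2.2, hφ q (hmem q hq).2.2⟩

theorem lin_ne {p u : ℝ × ℝ} (hu : u ≠ 0) : lin p u ≠ 0 := by
  intro h
  apply hu
  simp only [lin, Prod.mk_eq_zero] at h
  exact Prod.ext h.2.1 (by simpa using h.1)

theorem main_nat (X : Finset (ℝ × ℝ)) (t : ℕ) (P U : ℕ → ℝ × ℝ) (hU : ∀ i < t, U i ≠ 0)
    (hX : ∀ i < t, ∃ x ∈ X, ev (lin (P i) (U i)) (hat x) ≠ 0) :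
    3 * (X.filter fun a => Om X a ∧ ∃ i < t, ev (lin (P i) (U i)) (hat a) = 0).card ≤
      X.card + 4 * t * (t - 1) := by
  have hex : ∀ i, ∃ S : Finset (ℝ × ℝ), i < t → S.card = 2 * (AA X P U i).card ∧ S ⊆ X ∧
      (∀ v ∈ S, ev (lin (P i) (U i)) (hat v) ≠ 0) ∧ (∀ v ∈ S, Expo X (lin (P i) (U i)) v) ∧
      ∀ v ∈ S, ∃ a ∈ AA X P U i, ∃ κ : ℝ, κ ≠ 0 ∧ Flag X (lin (P i) (U i)) (U i) a κ v := by
    intro i
    by_cases hi : i < t
    · obtain ⟨S, hS⟩ := exists_VV (hU i hi) (hX i hi)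
      exact ⟨S, fun _ => hS⟩
    · exact ⟨∅, fun h => absurd h hi⟩
  choose S hS using hex
  set Y := X.filter fun v => ∀ j < t, ev (lin (P j) (U j)) (hat v) ≠ 0 with hY
  set W : ℕ → Finset (ℝ × ℝ) := fun i => (S i).filter fun v =>
    ∀ j < t, ev (lin (P j) (U j)) (hat v) ≠ 0 with hW
  have hW1 : ∀ i < t, 2 * (AA X P U i).card ≤ (W i).card + 2 * (t - 1) := by
    intro i hi
    obtain ⟨h1, h2, h3, h4, h5⟩ := hS i hi
    rw [← h1]
    have hsub : S i ⊆ W i ∪ ((Finset.range t).erase i).biUnion fun j =>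
        (S i).filter fun v => ev (lin (P j) (U j)) (hat v) = 0 := by
      intro v hv
      by_cases hc : ∀ j < t, ev (lin (P j) (U j)) (hat v) ≠ 0
      · exact Finset.mem_union_left _ (Finset.mem_filter.mpr ⟨hv, hc⟩)
      · push Not at hc
        obtain ⟨j, hj, hj0⟩ := hc
        refine Finset.mem_union_right _ (Finset.mem_biUnion.mpr ⟨j, ?_, ?_⟩)
        · rw [Finset.mem_erase, Finset.mem_range]
          refine ⟨?_, hj⟩
          rintro rfl
          exact h3 v hv hj0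
        · exact Finset.mem_filter.mpr ⟨hv, hj0⟩
    refine (Finset.card_le_card hsub).trans ((Finset.card_union_le _ _).trans ?_)
    refine Nat.add_le_add_left ?_ _
    refine (Finset.card_biUnion_le).trans ?_
    have hcard : ((Finset.range t).erase i).card = t - 1 := by
      rw [Finset.card_erase_of_mem (Finset.mem_range.mpr hi), Finset.card_range]
    calc ∑ j ∈ (Finset.range t).erase i,
          ((S i).filter fun v => ev (lin (P j) (U j)) (hat v) = 0).card
        ≤ ∑ j ∈ (Finset.range t).erase i, 2 := by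
          refine Finset.sum_le_sum fun j hj => ?_
          have hjt := Finset.mem_range.mp (Finset.mem_of_mem_erase hj)
          refine expo_line (X := X) (f := lin (P i) (U i)) (g := lin (P j) (U j))
            (lin_ne (hU j hjt)) ?_ ?_ ?_ ?_
          · exact (Finset.filter_subset _ _).trans h2
          · exact fun v hv => h3 v (Finset.mem_filter.mp hv).1
          · exact fun v hv => (Finset.mem_filter.mp hv).2
          · exact fun v hv => h4 v (Finset.mem_filter.mp hv).1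
      _ = 2 * (t - 1) := by rw [Finset.sum_const, hcard, smul_eq_mul, mul_comm]
  have hW2 : ∀ k < t, ∀ i < k, (W i ∩ W k).card ≤ 4 := by
    intro k hk i hi
    obtain ⟨-, a2, a3, a4, -⟩ := hS i (hi.trans hk)
    obtain ⟨-, b2, b3, -, b5⟩ := hS k hk
    refine shared_le (X := X) (p := P k) (u := U k) (f := lin (P i) (U i)) (hU k hk) ?_ ?_ ?_ ?_ ?_
    · exact Finset.inter_subset_left.trans ((Finset.filter_subset _ _).trans a2)
    · intro v hv
      exact a3 v (Finset.mem_filter.mp (Finset.mem_inter.mp hv).1).1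
    · intro v hv
      exact b3 v (Finset.mem_filter.mp (Finset.mem_inter.mp hv).2).1
    · intro v hv
      exact a4 v (Finset.mem_filter.mp (Finset.mem_inter.mp hv).1).1
    · intro v hv
      obtain ⟨a, ha, κ, hκ, hF⟩ := b5 v (Finset.mem_filter.mp (Finset.mem_inter.mp hv).2).1
      obtain ⟨c1, -, c3, c4⟩ := Finset.mem_filter.mp ha
      exact ⟨a, c1, c3, c4 i hi, κ, hκ, hF⟩
  have hind : ∀ k ≤ t, 2 * ∑ i ∈ Finset.range k, (AA X P U i).card ≤
      ((Finset.range k).biUnion W).card + 2 * (t - 1) * k + 2 * k * (k - 1) := by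
    intro k
    induction k with
    | zero => simp
    | succ k ih =>
      intro hk
      have ih' := ih (by omega)
      have h1 := hW1 k (by omega)
      rw [Finset.sum_range_succ, mul_add, Finset.range_add_one, Finset.biUnion_insert]
      have h2 := Finset.card_union_add_card_inter (W k) ((Finset.range k).biUnion W)
      have h3 : (W k ∩ (Finset.range k).biUnion W).card ≤ 4 * k := by
        have hsub : W k ∩ (Finset.range k).biUnion W ⊆
            (Finset.range k).biUnion fun i => W i ∩ W k := by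
          intro v hv
          obtain ⟨h3, h4⟩ := Finset.mem_inter.mp hv
          obtain ⟨i, hi, h5⟩ := Finset.mem_biUnion.mp h4
          exact Finset.mem_biUnion.mpr ⟨i, hi, Finset.mem_inter.mpr ⟨h5, h3⟩⟩
        refine (Finset.card_le_card hsub).trans (Finset.card_biUnion_le.trans ?_)
        calc ∑ i ∈ Finset.range k, (W i ∩ W k).card ≤ ∑ i ∈ Finset.range k, 4 :=
              Finset.sum_le_sum fun i hi => hW2 k (by omega) i (Finset.mem_range.mp hi)
          _ = 4 * k := by rw [Finset.sum_const, Finset.card_range, smul_eq_mul, mul_comm]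
      have h4 : 2 * (k + 1) * (k + 1 - 1) = 2 * k * (k - 1) + 4 * k := by
        rcases k with _ | k
        · simp
        · simp only [Nat.add_sub_cancel]
          ring
      rw [h4, mul_add (2 * (t - 1)) k 1, mul_one]
      omega
  have hfin := hind t le_rfl
  have hYW : (Finset.range t).biUnion W ⊆ Y := by
    intro v hv
    obtain ⟨i, hi, h⟩ := Finset.mem_biUnion.mp hv
    obtain ⟨h1, h2⟩ := Finset.mem_filter.mp h
    exact Finset.mem_filter.mpr ⟨(hS i (Finset.mem_range.mp hi)).2.1 h1, h2⟩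
  have hYc := Finset.card_le_card hYW
  set A := X.filter fun a => Om X a ∧ ∃ i < t, ev (lin (P i) (U i)) (hat a) = 0 with hA
  have hAs : A.card ≤ ∑ i ∈ Finset.range t, (AA X P U i).card := by
    have hsub : A ⊆ (Finset.range t).biUnion fun i => AA X P U i := by
      intro a ha
      obtain ⟨h1, h2, i, hi, h3⟩ := Finset.mem_filter.mp ha
      have hex2 : ∃ i, i < t ∧ ev (lin (P i) (U i)) (hat a) = 0 := ⟨i, hi, h3⟩
      have hm := Nat.find_spec hex2
      refine Finset.mem_biUnion.mpr ⟨Nat.find hex2, Finset.mem_range.mpr hm.1, ?_⟩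
      refine Finset.mem_filter.mpr ⟨h1, h2, hm.2, fun j hj h0 => ?_⟩
      exact Nat.find_min hex2 hj ⟨hj.trans hm.1, h0⟩
    exact (Finset.card_le_card hsub).trans Finset.card_biUnion_le
  have hdis : Disjoint A Y := by
    rw [Finset.disjoint_left]
    intro a ha hy
    obtain ⟨-, -, i, hi, h3⟩ := Finset.mem_filter.mp ha
    exact (Finset.mem_filter.mp hy).2 i hi h3
  have hAY : A.card + Y.card ≤ X.card := by
    rw [← Finset.card_union_of_disjoint hdis]
    exact Finset.card_le_card (Finset.union_subset (Finset.filter_subset _ _)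
      (Finset.filter_subset _ _))
  have e1 : 2 * (t - 1) * t + 2 * t * (t - 1) = 4 * t * (t - 1) := by ring
  omega

end

end Pool.Agent.OM
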