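import Pool.Agent.Helper43_OM.Flag

/-!
# Omissible points: two lines
-/

set_option autoImplicit false

namespace Pool.Agent.OM

theorem ev_self_pos {z : V} (h : z ≠ 0) : 0 < ev z z := by
  obtain ⟨a, b, c⟩ := z
  simp only [ev]
  by_contra hc
  push Not at hc
  apply h
  have h1 : a = 0 := by nlinarith [sq_nonneg a, sq_nonneg b, sq_nonneg c]
  have h2 : b = 0 := by nlinarith [sq_nonneg a, sq_nonneg b, sq_nonneg c]
  have h3 : c = 0 := by nlinarith [sq_nonneg a, sq_nonneg b, sq_nonneg c]
  rw [h1, h2, h3]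
  rfl

theorem cross_ne {f g v : V} (hf : ev f v ≠ 0) (hg : ev g v = 0) (hg0 : g ≠ 0) :
    cross f g ≠ 0 := by
  obtain ⟨f1, f2, f3⟩ := f
  obtain ⟨g1, g2, g3⟩ := g
  obtain ⟨v1, v2, v3⟩ := v
  intro h
  simp only [cross, Prod.mk_eq_zero] at h
  obtain ⟨h1, h2, h3⟩ := h
  simp only [ev] at hf hg
  apply hg0
  have e1 : (f1 * v1 + f2 * v2 + f3 * v3) * g1 = 0 := by
    linear_combination f1 * hg - v2 * h3 + v3 * h2
  have e2 : (f1 * v1 + f2 * v2 + f3 * v3) * g2 = 0 := by
    linear_combination f2 * hg + v1 * h3 - v3 * h1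
  have e3 : (f1 * v1 + f2 * v2 + f3 * v3) * g3 = 0 := by
    linear_combination f3 * hg - v1 * h2 + v2 * h1
  have d1 := (mul_eq_zero.mp e1).resolve_left hf
  have d2 := (mul_eq_zero.mp e2).resolve_left hf
  have d3 := (mul_eq_zero.mp e3).resolve_left hf
  rw [d1, d2, d3]
  rfl

/-- A line contains at most two exposed points. -/
theorem expo_line {X S : Finset (ℝ × ℝ)} {f g : V} (hg : g ≠ 0) (hS : S ⊆ X)
    (hf : ∀ v ∈ S, ev f (hat v) ≠ 0) (hgS : ∀ v ∈ S, ev g (hat v) = 0)
    (he : ∀ v ∈ S, Expo X f v) : S.card ≤ 2 := by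
  classical
  rcases S.eq_empty_or_nonempty with h | h
  · rw [h]; simp
  set o := cross f g with ho
  have ho0 : o ≠ 0 := by
    obtain ⟨v, hv⟩ := h
    exact cross_ne (hf v hv) (hgS v hv) hg
  have hoo := ev_self_pos ho0
  obtain ⟨b, hb, hbmax⟩ := Finset.exists_max_image S (fun x => ev o (nrm f x)) h
  obtain ⟨a, ha, hamin⟩ := Finset.exists_min_image S (fun x => ev o (nrm f x)) h
  have hsub : S ⊆ {a, b} := by
    intro v hv
    by_contra hne
    rw [Finset.mem_insert, Finset.mem_singleton, not_or] at hne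
    have h1 := hbmax v hv
    have h2 := hamin v hv
    -- the three points are on a line
    have key : ∀ x ∈ S, ∀ y ∈ S, nrm f x - nrm f y -
        ((ev o (nrm f x) - ev o (nrm f y)) / ev o o) • o = 0 := by
      intro x hx y hy
      refine vec_zero (f := f) (g := g) (L := o) ?_ ?_ ?_ ?_
      · rw [ev_sub, ev_sub, ev_smul, ev_nrm_self (hf x hx), ev_nrm_self (hf y hy),
          ev_cross_left]
        ring
      · rw [ev_sub, ev_sub, ev_smul, ev_nrm, ev_nrm, hgS x hx, hgS y hy, ev_cross_right]
        ring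
      · rw [ev_sub, ev_sub, ev_smul]
        field_simp
        ring
      · exact hoo.ne'
    set ta := ev o (nrm f a) with hta
    set tb := ev o (nrm f b) with htb
    set tv := ev o (nrm f v) with htv
    have hva : nrm f v = nrm f a + ((tv - ta) / ev o o) • o := by
      have := key v hv a ha
      rw [sub_sub, sub_eq_zero] at this
      exact this
    have hba : nrm f b = nrm f a + ((tb - ta) / ev o o) • o := by
      have := key b hb a ha
      rw [sub_sub, sub_eq_zero] at this
      exact this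
    rcases eq_or_lt_of_le (h2.trans h1) with h3 | h3
    · -- all equal
      have h4 : tv - ta = 0 := by
        have h5 : ta = tb := h3
        have h6 : ta ≤ tv := h2
        have h7 : tv ≤ tb := h1
        linarith
      rw [h4, zero_div, zero_smul, add_zero] at hva
      exact hne.1 (nrm_inj (hf v hv) hva)
    · have h3' : ta < tb := h3
      have h4 : 0 < tb - ta := by linarith
      have h6 : ta ≤ tv := h2
      have h7 : tv ≤ tb := h1
      have h8 : nrm f v = ((tb - tv) / (tb - ta)) • nrm f a + ((tv - ta) / (tb - ta)) • nrm f b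
          + (0 : ℝ) • nrm f b := by
        rw [hba, hva, smul_add, smul_smul]
        have h9 : (tv - ta) / (tb - ta) * ((tb - ta) / ev o o) = (tv - ta) / ev o o := by
          field_simp
        rw [h9]
        have h10 : (tb - tv) / (tb - ta) = 1 - (tv - ta) / (tb - ta) := by
          field_simp
          ring
        rw [h10]
        module
      exact (he v hv).not_conv (hS ha) (hS hb) (hS hb) (hf a ha) (hf b hb) (hf b hb)
        (fun h => hne.1 h.symm) (fun h => hne.2 h.symm) (fun h => hne.2 h.symm)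
        (div_nonneg (by linarith) h4.le) (div_nonneg (by linarith) h4.le) le_rfl
        (by field_simp; ring) h8
  exact (Finset.card_le_card hsub).trans Finset.card_le_two

/-- The data attached to an extreme point in the chart of `g`. -/
theorem flag_data {X : Finset (ℝ × ℝ)} {p u a v : ℝ × ℝ} {κ : ℝ} {f : V} (hu : u ≠ 0)
    (hκ : κ ≠ 0) (ha : ev (lin p u) (hat a) = 0) (hfa : ev f (hat a) ≠ 0)
    (h : Flag X (lin p u) u a κ v) :
    ∃ L : V, ev L (hat a) = 0 ∧ ev L (hat v) = 0 ∧
      (∀ x ∈ X, 0 ≤ ev (lin p u) (hat x) * ev L (hat x)) ∧ ev L (cross f (lin p u)) ≠ 0 := by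
  set g := lin p u with hg
  set c := ev (gf u a κ) (nrm g v) with hc
  have hGa : ev (gf u a κ) (hat a) = 0 := by
    rw [ev_gf]; ring
  refine ⟨c • g - gf u a κ, ?_, ?_, ?_, ?_⟩
  · rw [ev_sub_left, ev_smul_left, ha, hGa]
    ring
  · rw [ev_sub_left, ev_smul_left, hc, ev_nrm]
    field_simp [h.off]
    ring
  · intro x hx
    by_cases h0 : ev g (hat x) = 0
    · rw [h0, zero_mul]
    have h1 : ev (gf u a κ) (nrm g x) ≤ c := by
      by_cases hxv : x = v
      · rw [hxv]
      · rcases h.lex x hx h0 hxv with h2 | h2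
        · exact h2.le
        · exact h2.1.le
    rw [ev_sub_left, ev_smul_left]
    rw [ev_nrm] at h1
    have h2 : ev (gf u a κ) (hat x) = ev (gf u a κ) (hat x) / ev g (hat x) * ev g (hat x) := by
      field_simp
    rw [h2]
    have h3 : ev g (hat x) * (c * ev g (hat x) -
        ev (gf u a κ) (hat x) / ev g (hat x) * ev g (hat x)) =
        ev g (hat x) ^ 2 * (c - ev (gf u a κ) (hat x) / ev g (hat x)) := by ring
    rw [h3]
    exact mul_nonneg (sq_nonneg _) (by linarith)
  · rw [ev_sub_left, ev_smul_left, ev_cross_right]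
    have hu2 : 0 < u.1 ^ 2 + u.2 ^ 2 := by
      by_contra hc
      push Not at hc
      have h8 : u.1 = 0 := by nlinarith [sq_nonneg u.1, sq_nonneg u.2]
      have h9 : u.2 = 0 := by nlinarith [sq_nonneg u.1, sq_nonneg u.2]
      exact hu (Prod.ext h8 h9)
    have h1 : ev (gf u a κ) (cross f g) = -(κ * (u.1 ^ 2 + u.2 ^ 2) * ev f (hat a)) := by
      rw [hg, ev_lin] at ha
      obtain ⟨f1, f2, f3⟩ := f
      simp only [ev, gf, cross, hg, lin, hat] at ha ⊢
      linear_combination (κ * (u.1 * f2 - u.2 * f1)) * ha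
    rw [h1]
    have : κ * (u.1 ^ 2 + u.2 ^ 2) * ev f (hat a) ≠ 0 :=
      mul_ne_zero (mul_ne_zero hκ hu2.ne') hfa
    intro h2
    apply this
    linarith

/-- At most four common exposed points. -/
theorem shared_le {X S : Finset (ℝ × ℝ)} {p u : ℝ × ℝ} {f : V} (hu : u ≠ 0) (hS : S ⊆ X)
    (hf : ∀ v ∈ S, ev f (hat v) ≠ 0) (hg : ∀ v ∈ S, ev (lin p u) (hat v) ≠ 0)
    (he : ∀ v ∈ S, Expo X f v)
    (hfl : ∀ v ∈ S, ∃ a ∈ X, ev (lin p u) (hat a) = 0 ∧ ev f (hat a) ≠ 0 ∧
      ∃ κ : ℝ, κ ≠ 0 ∧ Flag X (lin p u) u a κ v) : S.card ≤ 4 := by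
  classical
  set g := lin p u with hgd
  set o := cross f g with ho
  have hdat : ∀ v, v ∈ S → ∃ (a : ℝ × ℝ) (L : V), a ∈ X ∧ ev g (hat a) = 0 ∧
      ev f (hat a) ≠ 0 ∧ ev L (hat a) = 0 ∧ ev L (hat v) = 0 ∧
      (∀ x ∈ X, 0 ≤ ev g (hat x) * ev L (hat x)) ∧ ev L o ≠ 0 := by
    intro v hv
    obtain ⟨a, haX, hga, hfa, κ, hκ, hF⟩ := hfl v hv
    obtain ⟨L, h1, h2, h3, h4⟩ := flag_data hu hκ hga hfa hF
    exact ⟨a, L, haX, hga, hfa, h1, h2, h3, h4⟩
  choose! a L haX hga hfa hLa hLv hpos hLo using hdat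
  have key : ∀ v ∈ S, ∀ w ∈ S, (0 < ev g (nrm f v) ↔ 0 < ev g (nrm f w)) →
      (0 < ev (L v) o ↔ 0 < ev (L w) o) → v = w := by
    intro v hv w hw h1 h2
    by_contra hne
    have gn : ∀ x ∈ S, ev g (nrm f x) ≠ 0 := fun x hx => by
      rw [ev_nrm]
      exact div_ne_zero (hg x hx) (hf x hx)
    have sgn : ∀ x ∈ S, ∀ y ∈ X, ev f (hat y) ≠ 0 → 0 ≤ ev g (nrm f y) * ev (L x) (nrm f y) := by
      intro x hx y hy hfy
      rw [ev_nrm, ev_nrm]
      have := hpos x hx y hy
      have h3 : ev g (hat y) / ev f (hat y) * (ev (L x) (hat y) / ev f (hat y)) =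
          (ev g (hat y) * ev (L x) (hat y)) / (ev f (hat y)) ^ 2 := by
        field_simp
      rw [h3]
      positivity
    -- a general form, for the signs e and d
    have gen : ∀ (e d : ℝ), (e = 1 ∨ e = -1) → (d = 1 ∨ d = -1) → 0 < e * ev g (nrm f v) →
        0 < e * ev g (nrm f w) → 0 < e * (d * ev (L v) o) → 0 < e * (d * ev (L w) o) → False := by
      intro e d he1 hd1 gv gw lv lw
      have e2 : e * e = 1 := by rcases he1 with h | h <;> rw [h] <;> norm_num
      have d2 : d * d = 1 := by rcases hd1 with h | h <;> rw [h] <;> norm_num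
      have hLvw : 0 ≤ e * ev (L v) (nrm f w) := by
        have h3 := sgn v hv w (hS hw) (hf w hw)
        have h4 : 0 ≤ (e * ev g (nrm f w)) * (e * ev (L v) (nrm f w)) := by
          have : (e * ev g (nrm f w)) * (e * ev (L v) (nrm f w)) =
              (e * e) * (ev g (nrm f w) * ev (L v) (nrm f w)) := by ring
          rw [this, e2, one_mul]
          exact h3
        exact nonneg_of_mul_nonneg_right h4 gw
      have hLwv : 0 ≤ e * ev (L w) (nrm f v) := by
        have h3 := sgn w hw v (hS hv) (hf v hv)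
        have h4 : 0 ≤ (e * ev g (nrm f v)) * (e * ev (L w) (nrm f v)) := by
          have : (e * ev g (nrm f v)) * (e * ev (L w) (nrm f v)) =
              (e * e) * (ev g (nrm f v) * ev (L w) (nrm f v)) := by ring
          rw [this, e2, one_mul]
          exact h3
        exact nonneg_of_mul_nonneg_right h4 gv
      have e0 : e ≠ 0 := by
        rintro rfl
        norm_num at e2
      have hnrm0 : ∀ (F : V) (x : ℝ × ℝ), ev F (hat x) = 0 → ev F (nrm f x) = 0 := by
        intro F x h
        rw [ev_nrm, h, zero_div]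
      have hres := class_uniq (f := f) (g := e • g) (o := d • o) (a₁ := nrm f (a v))
        (a₂ := nrm f (a w)) (v₁ := nrm f v) (v₂ := nrm f w) (L₁ := e • L v) (L₂ := e • L w)
        (by rw [ev_smul, ev_cross_left, mul_zero])
        (by rw [ev_smul, ev_smul_left, ev_cross_right, mul_zero, mul_zero])
        (ev_nrm_self (hfa v hv)) (ev_nrm_self (hfa w hw)) (ev_nrm_self (hf v hv))
        (ev_nrm_self (hf w hw))
        (by rw [ev_smul_left, hnrm0 _ _ (hga v hv), mul_zero])
        (by rw [ev_smul_left, hnrm0 _ _ (hga w hw), mul_zero])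
        (by rw [ev_smul_left]; exact gv) (by rw [ev_smul_left]; exact gw)
        (by rw [ev_smul_left, hnrm0 _ _ (hLa v hv), mul_zero])
        (by rw [ev_smul_left, hnrm0 _ _ (hLv v hv), mul_zero])
        (by rw [ev_smul_left, hnrm0 _ _ (hLa w hw), mul_zero])
        (by rw [ev_smul_left, hnrm0 _ _ (hLv w hw), mul_zero])
        (by rw [ev_smul_left]; exact hLvw) (by rw [ev_smul_left]; exact hLwv)
        (by rw [ev_smul_left, ev_smul]; exact lv)
        (by rw [ev_smul_left, ev_smul]; exact lw)
        (by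
          intro z h3 h4 h5
          rw [ev_smul_left] at h4 h5
          exact vec_zero h3 ((mul_eq_zero.mp h4).resolve_left e0)
            ((mul_eq_zero.mp h5).resolve_left e0) (hLo v hv))
      have hav : ∀ x ∈ S, ∀ y ∈ S, a x ≠ y := by
        intro x hx y hy h
        apply hg y hy
        rw [← h]
        exact hga x hx
      rcases hres with h3 | ⟨s, t, q, hs, ht, hq, hsum, h3⟩ | ⟨s, t, q, hs, ht, hq, hsum, h3⟩
      · exact hne (nrm_inj (hf v hv) h3)
      · exact (he w hw).not_conv (haX v hv) (haX w hw) (hS hv) (hfa v hv) (hfa w hw) (hf v hv)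
          (hav v hv w hw) (hav w hw w hw) hne hs ht hq hsum h3
      · exact (he v hv).not_conv (haX v hv) (haX w hw) (hS hw) (hfa v hv) (hfa w hw) (hf w hw)
          (hav v hv v hv) (hav w hw v hv) (fun h => hne h.symm) hs ht hq hsum h3
    rcases lt_or_gt_of_ne (gn v hv) with gv | gv
    · have gw : ev g (nrm f w) < 0 := by
        rcases lt_or_gt_of_ne (gn w hw) with h | h
        · exact h
        · exact absurd (h1.mpr h) (not_lt.mpr gv.le)
      rcases lt_or_gt_of_ne (hLo v hv) with lv | lv
      · have lw : ev (L w) o < 0 := by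
          rcases lt_or_gt_of_ne (hLo w hw) with h | h
          · exact h
          · exact absurd (h2.mpr h) (not_lt.mpr lv.le)
        exact gen (-1) 1 (Or.inr rfl) (Or.inl rfl) (by linarith) (by linarith) (by linarith)
          (by linarith)
      · have lw := h2.mp lv
        exact gen (-1) (-1) (Or.inr rfl) (Or.inr rfl) (by linarith) (by linarith) (by linarith)
          (by linarith)
    · have gw := h1.mp gv
      rcases lt_or_gt_of_ne (hLo v hv) with lv | lv
      · have lw : ev (L w) o < 0 := by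
          rcases lt_or_gt_of_ne (hLo w hw) with h | h
          · exact h
          · exact absurd (h2.mpr h) (not_lt.mpr lv.le)
        exact gen 1 (-1) (Or.inl rfl) (Or.inr rfl) (by linarith) (by linarith) (by linarith)
          (by linarith)
      · have lw := h2.mp lv
        exact gen 1 1 (Or.inl rfl) (Or.inl rfl) (by linarith) (by linarith) (by linarith)
          (by linarith)
  have hcard : S.card ≤ (Finset.univ : Finset (Bool × Bool)).card := by
    refine Finset.card_le_card_of_injOn
      (fun v => (decide (0 < ev g (nrm f v)), decide (0 < ev (L v) o))) (fun _ _ => by simp) ?_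
    intro v hv w hw h
    simp only [Prod.mk.injEq, decide_eq_decide] at h
    exact key v hv w hw h.1 h.2
  simpa using hcard

end Pool.Agent.OM
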