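import Pool.Agent.Helper43_OM.Main

/-!
# Omissible points: definitions, and passage from lines to equations
-/

set_option autoImplicit false

open scoped BigOperators

namespace Pool.Agent.OM

/-- The lines spanned by a set: the lines through two of its points. -/
def Spanned (X : Set (ℝ × ℝ)) : Set (AffineSubspace ℝ (ℝ × ℝ)) :=
  {L | ∃ p ∈ X, ∃ q ∈ X, p ≠ q ∧ L = line[ℝ, p, q]}

/-- `x` is omissible in `X`. -/
def Omissible (X : Set (ℝ × ℝ)) (x : ℝ × ℝ) : Prop := x ∈ X ∧ Spanned (X \ {x}) = Spanned X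

/-- `L` is a line of the plane. -/
def IsLine (L : AffineSubspace ℝ (ℝ × ℝ)) : Prop := Module.finrank ℝ L.direction = 1

theorem isLine_eqn {L : AffineSubspace ℝ (ℝ × ℝ)} (hL : IsLine L) :
    ∃ p u : ℝ × ℝ, u ≠ 0 ∧ ∀ x, x ∈ L ↔ ev (lin p u) (hat x) = 0 := by
  have hne : (L : Set (ℝ × ℝ)).Nonempty := by
    rw [AffineSubspace.nonempty_iff_ne_bot]
    rintro rfl
    unfold IsLine at hL
    rw [AffineSubspace.direction_bot, finrank_bot] at hL
    exact absurd hL (by norm_num)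
  obtain ⟨p, hp⟩ := hne
  obtain ⟨⟨u, hu⟩, hu0, hspan⟩ := finrank_eq_one_iff'.mp hL
  have hu0' : u ≠ 0 := fun h => hu0 (Subtype.ext h)
  refine ⟨p, u, hu0', fun x => ?_⟩
  have hs := sq_pos_of hu0'
  rw [← AffineSubspace.vsub_right_mem_direction_iff_mem hp, ev_lin]
  constructor
  · intro h
    obtain ⟨c, hc⟩ := hspan ⟨x -ᵥ p, h⟩
    have hc' : c • u = x - p := congrArg Subtype.val hc
    have h1 : c * u.1 = x.1 - p.1 := by
      have := congrArg Prod.fst hc'
      simpa using this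
    have h2 : c * u.2 = x.2 - p.2 := by
      have := congrArg Prod.snd hc'
      simpa using this
    rw [← h1, ← h2]
    ring
  · intro h
    have h1 : x -ᵥ p = ((u.1 * (x.1 - p.1) + u.2 * (x.2 - p.2)) / (u.1 ^ 2 + u.2 ^ 2)) • u := by
      have hne := hs.ne'
      apply Prod.ext
      · simp only [vsub_eq_sub, Prod.fst_sub, Prod.smul_fst, smul_eq_mul]
        field_simp
        linear_combination (-u.2) * h
      · simp only [vsub_eq_sub, Prod.snd_sub, Prod.smul_snd, smul_eq_mul]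
        field_simp
        linear_combination u.1 * h
    rw [h1]
    exact Submodule.smul_mem _ _ hu

/-- Two lines with two common points are equal. -/
theorem line_uniq {L L' : AffineSubspace ℝ (ℝ × ℝ)} (hL : IsLine L) (hL' : IsLine L')
    {x y : ℝ × ℝ} (hxy : x ≠ y) (hx : x ∈ L) (hy : y ∈ L) (hx' : x ∈ L') (hy' : y ∈ L') :
    L = L' := by
  refine AffineSubspace.ext_of_direction_eq ?_ ⟨x, hx, hx'⟩
  have hv : y -ᵥ x ≠ 0 := by
    rw [vsub_ne_zero]
    exact hxy.symm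
  have key : ∀ M : AffineSubspace ℝ (ℝ × ℝ), IsLine M → x ∈ M → y ∈ M →
      M.direction = Submodule.span ℝ {y -ᵥ x} := by
    intro M hM h1 h2
    have hd : y -ᵥ x ∈ M.direction := AffineSubspace.vsub_mem_direction h2 h1
    refine (Submodule.eq_of_le_of_finrank_eq ?_ ?_).symm
    · rw [Submodule.span_le, Set.singleton_subset_iff]
      exact hd
    · rw [finrank_span_singleton hv]
      exact hM.symm
  rw [key L hL hx hy, key L' hL' hx' hy']

theorem om_of_omissible {X : Finset (ℝ × ℝ)} {a : ℝ × ℝ}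
    (h : Omissible (X : Set (ℝ × ℝ)) a) : Om X a := by
  obtain ⟨haX, hS⟩ := h
  refine ⟨haX, fun x hx hxa => ?_⟩
  have h1 : line[ℝ, a, x] ∈ Spanned (X : Set (ℝ × ℝ)) := ⟨a, haX, x, hx, hxa.symm, rfl⟩
  rw [← hS] at h1
  obtain ⟨p, hp, q, hq, hpq, he⟩ := h1
  have hmem : ∀ y, y ∈ line[ℝ, a, x] → (x.1 - a.1) * (y.2 - a.2) - (x.2 - a.2) * (y.1 - a.1)
      = 0 := by
    intro y hy
    rw [mem_affineSpan_pair_iff_exists_lineMap_eq] at hy
    obtain ⟨r, rfl⟩ := hy
    simp only [AffineMap.lineMap_apply, vsub_eq_sub, vadd_eq_add, Prod.fst_add, Prod.snd_add,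
      Prod.smul_fst, Prod.smul_snd, Prod.fst_sub, Prod.snd_sub, smul_eq_mul]
    ring
  have hp' : p ∈ line[ℝ, a, x] := by
    rw [he]
    exact left_mem_affineSpan_pair ℝ p q
  have hq' : q ∈ line[ℝ, a, x] := by
    rw [he]
    exact right_mem_affineSpan_pair ℝ p q
  by_cases hpx : p = x
  · refine ⟨q, hq.1, hq.2, fun h => hpq (hpx.trans h.symm), hmem q hq'⟩
  · exact ⟨p, hp.1, hp.2, hpx, hmem p hp'⟩

theorem exists_off {X : Finset (ℝ × ℝ)} (hX : ¬ Collinear ℝ (X : Set (ℝ × ℝ)))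
    {L : AffineSubspace ℝ (ℝ × ℝ)} (hL : IsLine L) : ∃ x ∈ X, x ∉ L := by
  by_contra hc
  push Not at hc
  apply hX
  rw [collinear_iff_finrank_le_one]
  have h1 : vectorSpan ℝ (X : Set (ℝ × ℝ)) ≤ L.direction := by
    have h2 : affineSpan ℝ (X : Set (ℝ × ℝ)) ≤ L := affineSpan_le.mpr fun x hx => hc x hx
    rw [← direction_affineSpan]
    exact AffineSubspace.direction_le h2
  exact (Submodule.finrank_mono h1).trans hL.le

/-- The first theorem. -/
theorem on_lines (X : Set (ℝ × ℝ)) (hfin : X.Finite) (hX : ¬ Collinear ℝ X) (t : ℕ)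
    (L : Fin t → AffineSubspace ℝ (ℝ × ℝ)) (hL : ∀ i, IsLine (L i)) :
    3 * {x | Omissible X x ∧ ∃ i, x ∈ L i}.ncard ≤ X.ncard + 4 * t * (t - 1) := by
  classical
  obtain ⟨Y, rfl⟩ : ∃ Y : Finset (ℝ × ℝ), X = Y := ⟨hfin.toFinset, by simp⟩
  choose p u hu heq using fun i => isLine_eqn (hL i)
  have h := main_nat Y t (fun i => if hi : i < t then p ⟨i, hi⟩ else 0)
    (fun i => if hi : i < t then u ⟨i, hi⟩ else 0)
    (fun i hi => by simp only [hi, dif_pos]; exact hu _)
    (fun i hi => by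
      obtain ⟨x, hx, hxL⟩ := exists_off hX (hL ⟨i, hi⟩)
      refine ⟨x, hx, ?_⟩
      simp only [hi, dif_pos]
      intro h0
      exact hxL ((heq _ x).mpr h0))
  rw [Set.ncard_coe_finset]
  refine le_trans (Nat.mul_le_mul_left 3 ?_) h
  rw [← Set.ncard_coe_finset]
  refine Set.ncard_le_ncard ?_ (Finset.finite_toSet _)
  rintro x ⟨hx, i, hi⟩
  rw [Finset.mem_coe, Finset.mem_filter]
  refine ⟨hx.1, om_of_omissible hx, i.1, i.2, ?_⟩
  simp only [i.2, dif_pos]
  exact (heq _ x).mp hi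

theorem count_lines {X : Finset (ℝ × ℝ)} {k : ℕ} (T : Finset (AffineSubspace ℝ (ℝ × ℝ)))
    (hT : ∀ L ∈ T, IsLine L ∧ k ≤ ((X : Set (ℝ × ℝ)) ∩ L).ncard) :
    2 * k * T.card ≤ 2 * X.card + T.card * (T.card - 1) := by
  classical
  -- the points of `X` on a line
  let N : AffineSubspace ℝ (ℝ × ℝ) → Finset (ℝ × ℝ) := fun L => X.filter fun x => x ∈ L
  have hN : ∀ L, (N L).card = ((X : Set (ℝ × ℝ)) ∩ L).ncard := by
    intro L
    rw [← Set.ncard_coe_finset]
    congr 1
    ext x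
    simp [N]
  have key : ∀ T : Finset (AffineSubspace ℝ (ℝ × ℝ)),
      (∀ L ∈ T, IsLine L ∧ k ≤ ((X : Set (ℝ × ℝ)) ∩ L).ncard) →
      2 * k * T.card ≤ 2 * (T.biUnion N).card + T.card * (T.card - 1) := by
    intro T
    induction T using Finset.induction_on with
    | empty => simp
    | insert L T hLT ih =>
      intro h
      have ih' := ih fun M hM => h M (Finset.mem_insert_of_mem hM)
      obtain ⟨hL, hk⟩ := h L (Finset.mem_insert_self L T)
      rw [← hN L] at hk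
      rw [Finset.card_insert_of_notMem hLT, Finset.biUnion_insert]
      have h2 := Finset.card_union_add_card_inter (N L) (T.biUnion N)
      have h3 : (N L ∩ T.biUnion N).card ≤ T.card := by
        have hsub : N L ∩ T.biUnion N ⊆ T.biUnion fun M => N L ∩ N M := by
          intro v hv
          obtain ⟨h3, h4⟩ := Finset.mem_inter.mp hv
          obtain ⟨M, hM, h5⟩ := Finset.mem_biUnion.mp h4
          exact Finset.mem_biUnion.mpr ⟨M, hM, Finset.mem_inter.mpr ⟨h3, h5⟩⟩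
        refine (Finset.card_le_card hsub).trans (Finset.card_biUnion_le.trans ?_)
        calc ∑ M ∈ T, (N L ∩ N M).card ≤ ∑ M ∈ T, 1 := by
              refine Finset.sum_le_sum fun M hM => ?_
              rw [Finset.card_le_one]
              intro x hx y hy
              by_contra hxy
              have hML : L ≠ M := fun h => hLT (h ▸ hM)
              apply hML
              simp only [N, Finset.mem_inter, Finset.mem_filter] at hx hy
              exact line_uniq hL (h M (Finset.mem_insert_of_mem hM)).1 hxy hx.1.2 hy.1.2 hx.2.2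
                hy.2.2
          _ = T.card := by rw [Finset.sum_const, smul_eq_mul, mul_one]
      have h4 : (T.card + 1) * (T.card + 1 - 1) = T.card * (T.card - 1) + 2 * T.card := by
        rcases T.card with _ | c
        · simp
        · simp only [Nat.add_sub_cancel]
          ring
      rw [h4, mul_add, mul_one]
      omega
  refine (key T hT).trans ?_
  have hle : (T.biUnion N).card ≤ X.card := by
    refine Finset.card_le_card ?_
    intro x hx
    obtain ⟨M, -, h5⟩ := Finset.mem_biUnion.mp hx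
    exact (Finset.mem_filter.mp h5).1
  omega

theorem count_rich {X : Finset (ℝ × ℝ)} {k : ℕ} (hn : 0 < X.card) (hk : 4 * X.card ≤ k ^ 2)
    (T : Finset (AffineSubspace ℝ (ℝ × ℝ)))
    (hT : ∀ L ∈ T, IsLine L ∧ k ≤ ((X : Set (ℝ × ℝ)) ∩ L).ncard) :
    3 * k * T.card ≤ 4 * X.card := by
  by_contra hc
  push Not at hc
  set n := X.card with hnd
  have hk0 : 0 < k := by
    rcases Nat.eq_zero_or_pos k with h | h
    · rw [h] at hk; omega
    · exact h
  set m := 4 * n / (3 * k) + 1 with hm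
  have hm1 : m ≤ T.card := by
    have h1 : 4 * n / (3 * k) < T.card := by
      rw [Nat.div_lt_iff_lt_mul (by positivity)]
      linarith
    omega
  obtain ⟨S, hST, hSc⟩ := Finset.exists_subset_card_eq hm1
  have h1 := count_lines S fun L hL => hT L (hST hL)
  rw [hSc] at h1
  have h2 : 3 * k * (m - 1) ≤ 4 * n := by
    rw [hm, Nat.add_sub_cancel]
    exact Nat.mul_div_le _ _
  have h3 : 4 * n < 3 * k * m := by
    rw [hm]
    have := Nat.lt_mul_div_succ (4 * n) (show 0 < 3 * k by positivity)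
    exact this
  obtain ⟨c, hc'⟩ : ∃ c, m = c + 1 := ⟨_, hm⟩
  rw [hc', Nat.add_sub_cancel] at h1 h2
  rw [hc'] at h3
  have h5 : 3 * c ≤ k := by
    have h6 : k * (3 * c) ≤ k * k := by nlinarith
    exact Nat.le_of_mul_le_mul_left h6 hk0
  have h7 : 3 * ((c + 1) * c) ≤ (c + 1) * k := by nlinarith
  have h8 : 2 * k * (c + 1) ≤ 2 * n + (c + 1) * c := h1
  have h9 : 5 * (k * (c + 1)) ≤ 6 * n := by nlinarith
  nlinarith

/-- The second theorem. -/
theorem on_rich (X : Set (ℝ × ℝ)) (hfin : X.Finite) (hX : ¬ Collinear ℝ X) (k : ℕ)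
    (hk : 4 * X.ncard ≤ k ^ 2) :
    ({x | Omissible X x ∧ ∃ L : AffineSubspace ℝ (ℝ × ℝ), IsLine L ∧ x ∈ L ∧
      k ≤ (X ∩ L).ncard}.ncard : ℝ) ≤ X.ncard / 3 + 3 * (X.ncard : ℝ) ^ 2 / k ^ 2 := by
  classical
  obtain ⟨Y, rfl⟩ : ∃ Y : Finset (ℝ × ℝ), X = Y := ⟨hfin.toFinset, by simp⟩
  have hYne : 0 < Y.card := by
    rcases Y.eq_empty_or_nonempty with h | h
    · exfalso
      apply hX
      rw [h]
      simpa using collinear_empty ℝ (ℝ × ℝ)
    · exact h.card_pos
  rw [Set.ncard_coe_finset] at hk ⊢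
  have hk2 : 2 ≤ k := by
    by_contra hc
    push Not at hc
    have : k ^ 2 ≤ 1 := by
      interval_cases k <;> norm_num
    omega
  -- the rich lines
  set Rr : Set (AffineSubspace ℝ (ℝ × ℝ)) :=
    {L | IsLine L ∧ k ≤ ((Y : Set (ℝ × ℝ)) ∩ L).ncard} with hRr
  have hfinR : Rr.Finite := by
    refine ((Y ×ˢ Y).finite_toSet.image fun q => line[ℝ, q.1, q.2]).subset ?_
    rintro L ⟨hL, hLk⟩
    have h1 : 1 < ((Y : Set (ℝ × ℝ)) ∩ L).ncard := by omega
    rw [Set.one_lt_ncard ((Y.finite_toSet).subset Set.inter_subset_left)] at h1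
    obtain ⟨x, hx, y, hy, hxy⟩ := h1
    refine ⟨(x, y), ?_, ?_⟩
    · rw [Finset.mem_coe, Finset.mem_product]
      exact ⟨hx.1, hy.1⟩
    · have hl : IsLine (line[ℝ, x, y]) := by
        unfold IsLine
        rw [direction_affineSpan, vectorSpan_pair_rev]
        exact finrank_span_singleton (by rw [vsub_ne_zero]; exact hxy.symm)
      exact line_uniq hl hL hxy (left_mem_affineSpan_pair ℝ x y)
        (right_mem_affineSpan_pair ℝ x y) hx.2 hy.2
  set T := hfinR.toFinset with hT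
  have hTm : ∀ L, L ∈ T ↔ IsLine L ∧ k ≤ ((Y : Set (ℝ × ℝ)) ∩ L).ncard := by
    intro L
    rw [hT, Set.Finite.mem_toFinset]
    rfl
  have hcount := count_rich hYne hk T fun L hL => (hTm L).mp hL
  have hmain := on_lines (Y : Set (ℝ × ℝ)) hfin hX T.card (fun i => (T.equivFin.symm i).1)
    (fun i => ((hTm _).mp (T.equivFin.symm i).2).1)
  have hle : {x | Omissible (Y : Set (ℝ × ℝ)) x ∧ ∃ L : AffineSubspace ℝ (ℝ × ℝ), IsLine L ∧
      x ∈ L ∧ k ≤ ((Y : Set (ℝ × ℝ)) ∩ L).ncard}.ncard ≤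
      {x | Omissible (Y : Set (ℝ × ℝ)) x ∧ ∃ i : Fin T.card,
        x ∈ (T.equivFin.symm i).1}.ncard := by
    refine Set.ncard_le_ncard ?_ ((Y.finite_toSet).subset fun x hx => hx.1.1)
    rintro x ⟨hx, L, h1, h2, h3⟩
    refine ⟨hx, T.equivFin ⟨L, (hTm L).mpr ⟨h1, h3⟩⟩, ?_⟩
    rw [Equiv.symm_apply_apply]
    exact h2
  rw [Set.ncard_coe_finset] at hmain
  set N := {x | Omissible (Y : Set (ℝ × ℝ)) x ∧ ∃ L : AffineSubspace ℝ (ℝ × ℝ), IsLine L ∧
      x ∈ L ∧ k ≤ ((Y : Set (ℝ × ℝ)) ∩ L).ncard}.ncard with hN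
  have h1 : 3 * N ≤ Y.card + 4 * T.card * (T.card - 1) :=
    (Nat.mul_le_mul_left 3 hle).trans hmain
  have h2 : 3 * N ≤ Y.card + 4 * T.card * T.card :=
    h1.trans (Nat.add_le_add_left (Nat.mul_le_mul_left _ (Nat.sub_le _ _)) _)
  have h3 : 3 * (N : ℝ) ≤ Y.card + 4 * T.card * T.card := by exact_mod_cast h2
  have h4 : 3 * (k : ℝ) * T.card ≤ 4 * Y.card := by exact_mod_cast hcount
  have hk0 : (0 : ℝ) < k := by exact_mod_cast (show 0 < k by omega)
  have h5 : (T.card : ℝ) ≤ 4 * Y.card / (3 * k) := by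
    rw [le_div_iff₀ (by positivity)]
    linarith
  have h6 : (T.card : ℝ) * T.card ≤ (4 * Y.card / (3 * k)) * (4 * Y.card / (3 * k)) :=
    mul_le_mul h5 h5 (by positivity) (by positivity)
  have h7 : (4 * (Y.card : ℝ) / (3 * k)) * (4 * Y.card / (3 * k)) =
      16 / 9 * ((Y.card : ℝ) ^ 2 / k ^ 2) := by
    field_simp
    ring
  have h8 : 0 ≤ (Y.card : ℝ) ^ 2 / k ^ 2 := by positivity
  have h9 : 3 * (Y.card : ℝ) ^ 2 / k ^ 2 = 3 * ((Y.card : ℝ) ^ 2 / k ^ 2) := by ring
  rw [h9]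
  rw [h7] at h6
  linarith

end Pool.Agent.OM
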